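import Pool.Agent.H47.QTetraAll

set_option autoImplicit false

namespace Pool.Agent.Results.MP_b29e0e_al.NoTetrahedronModule

open Module

/-- `θ 0, …, θ d` are the eigenvalues of `T`, each listed exactly once. -/
def ListsEigenvalues {K V : Type*} [Field K] [AddCommGroup V] [Module K V]
    (T : Module.End K V) {d : ℕ} (θ : Fin (d + 1) → K) : Prop :=
  Function.Injective θ ∧ ∀ μ : K, T.HasEigenvalue μ ↔ ∃ i, θ i = μ

/-- The eigenspaces of `T` can be listed as `V 0, …, V d` with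
`S (V i) ⊆ V (i - 1) + V i + V (i + 1)` for every `i`. -/
def ActsTridiagonally {K V : Type*} [Field K] [AddCommGroup V] [Module K V]
    (T S : Module.End K V) (d : ℕ) : Prop :=
  ∃ θ : Fin (d + 1) → K, ListsEigenvalues T θ ∧
    ∀ i : Fin (d + 1), ∀ v ∈ T.eigenspace (θ i),
      S v ∈ ⨆ (j : Fin (d + 1)) (_ : (j : ℕ) ≤ (i : ℕ) + 1 ∧ (i : ℕ) ≤ (j : ℕ) + 1),
        T.eigenspace (θ j)

/-- `A, As` is a tridiagonal pair of diameter `d` on `V`. -/
structure IsTridiagonalPair {K V : Type*} [Field K] [AddCommGroup V] [Module K V]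
    (A As : Module.End K V) (d : ℕ) : Prop where
  /-- `A` is diagonalizable. -/
  diag : ⨆ μ : K, A.eigenspace μ = ⊤
  /-- `As` is diagonalizable. -/
  diagStar : ⨆ μ : K, As.eigenspace μ = ⊤
  /-- `As` acts tridiagonally on the eigenspaces of `A`. -/
  tri : ActsTridiagonally A As d
  /-- `A` acts tridiagonally on the eigenspaces of `As`. -/
  triStar : ActsTridiagonally As A d
  /-- No proper nonzero subspace is invariant under both maps. -/
  irred : ∀ W : Submodule K V, (∀ v ∈ W, A v ∈ W) → (∀ v ∈ W, As v ∈ W) → W = ⊥ ∨ W = ⊤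

/-- The two tridiagonal relations with scalars `β, γ, γs, ρ, ρs`. -/
def TridiagonalRelations {K V : Type*} [Field K] [AddCommGroup V] [Module K V]
    (A As : Module.End K V) (β γ γs ρ ρs : K) : Prop :=
  ⁅A, A ^ 2 * As + As * A ^ 2 - β • (A * As * A) - γ • (A * As + As * A) - ρ • As⁆ = 0 ∧
  ⁅As, As ^ 2 * A + A * As ^ 2 - β • (As * A * As) - γs • (As * A + A * As) - ρs • A⁆ = 0

/-- The pairs `(i, j)` in `ℤ / 4` with `j - i` equal to `1` or `2`. -/
abbrev Idx : Type := {p : ZMod 4 × ZMod 4 // p.2 - p.1 = 1 ∨ p.2 - p.1 = 2}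

/-- The free generator `x i j`. -/
noncomputable def gen (K : Type*) [Field K] (i j : ZMod 4) (h : j - i = 1 ∨ j - i = 2) :
    FreeAlgebra K Idx := FreeAlgebra.ι K ⟨(i, j), h⟩

/-- `S q X Y = X³Y - [3] X²YX + [3] XYX² - YX³` with `[3] = q² + 1 + q⁻²`. -/
def qSerre {K R : Type*} [Field K] [Ring R] [Algebra K R] (q : K) (X Y : R) : R :=
  X ^ 3 * Y - (q ^ 2 + 1 + q⁻¹ ^ 2) • (X ^ 2 * Y * X) +
    (q ^ 2 + 1 + q⁻¹ ^ 2) • (X * Y * X ^ 2) - Y * X ^ 3

/-- The defining relations of the q-tetrahedron algebra. -/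
inductive Rel {K : Type*} [Field K] (q : K) : FreeAlgebra K Idx → FreeAlgebra K Idx → Prop
  | inv (i j : ZMod 4) (h : j - i = 1 ∨ j - i = 2) (h' : i - j = 1 ∨ i - j = 2) :
      j - i = 2 → Rel q (gen K i j h * gen K j i h') 1
  | qcomm (i j k : ZMod 4) (h : j - i = 1 ∨ j - i = 2) (h' : k - j = 1 ∨ k - j = 2) :
      ((j - i = 1 ∧ k - j = 1) ∨ (j - i = 1 ∧ k - j = 2) ∨ (j - i = 2 ∧ k - j = 1)) →
      Rel q (q • (gen K i j h * gen K j k h') - q⁻¹ • (gen K j k h' * gen K i j h))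
        ((q - q⁻¹) • 1)
  | serre (i j k l : ZMod 4) (h : j - i = 1 ∨ j - i = 2) (h' : l - k = 1 ∨ l - k = 2) :
      j - i = 1 → k - j = 1 → l - k = 1 → Rel q (qSerre q (gen K i j h) (gen K k l h')) 0

/-- The q-tetrahedron algebra over `K`. -/
abbrev Tetra {K : Type*} [Field K] (q : K) : Type _ := RingQuot (Rel q)

/-- The generator `x i j` of the q-tetrahedron algebra. -/
noncomputable def Tetra.x {K : Type*} [Field K] (q : K) (i j : ZMod 4)
    (h : j - i = 1 ∨ j - i = 2) : Tetra q := RingQuot.mkAlgHom K (Rel q) (gen K i j h)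

/-- The module structure `f` on `V` has `A` in the span of `x01, x12, 1` and `As` in the span of
`x23, x30, 1`. -/
def Realizes {K V : Type*} [Field K] [AddCommGroup V] [Module K V] {q : K}
    (f : Tetra q →ₐ[K] Module.End K V) (A As : Module.End K V) : Prop :=
  A ∈ Submodule.span K {f (Tetra.x q 0 1 (by decide)), f (Tetra.x q 1 2 (by decide)), 1} ∧
  As ∈ Submodule.span K {f (Tetra.x q 2 3 (by decide)), f (Tetra.x q 3 0 (by decide)), 1}

/-- Tridiagonal action from an explicit eigenbasis. -/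
theorem acts_of_basis (b : Basis (Fin 4) ℂ (Fin 4 → ℂ)) (T S : Module.End ℂ (Fin 4 → ℂ))
    (t : Fin 4 → ℂ) (ht : Function.Injective t) (hT : ∀ i, T (b i) = t i • b i)
    (hS : ∀ i : Fin 4, ∃ c : Fin 4 → ℂ, S (b i) = ∑ j, c j • b j ∧
      ∀ j : Fin 4, ¬ ((j : ℕ) ≤ (i : ℕ) + 1 ∧ (i : ℕ) ≤ (j : ℕ) + 1) → c j = 0) :
    ActsTridiagonally T S 3 ∧ ⨆ μ : ℂ, T.eigenspace μ = ⊤ := by
  have hmem : ∀ i, b i ∈ T.eigenspace (t i) := fun i => by
    rw [Module.End.mem_eigenspace_iff]; exact hT i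
  have hrep : ∀ (v : Fin 4 → ℂ) (j : Fin 4), b.repr (T v) j = t j * b.repr v j := by
    intro v j
    have h1 : v = ∑ k, b.repr v k • b k := (b.sum_repr v).symm
    conv_lhs => rw [h1]
    simp only [map_sum, map_smul, hT, smul_smul]
    simp only [Finsupp.coe_finsetSum, Finsupp.coe_smul, Finset.sum_apply, Pi.smul_apply,
      Basis.repr_self, smul_eq_mul]
    rw [Finset.sum_eq_single j]
    · simp; ring
    · intro k _ hk
      rw [Finsupp.single_eq_of_ne (by exact fun h => hk h.symm)]; simp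
    · intro h; exact absurd (Finset.mem_univ j) h
  refine ⟨⟨t, ⟨ht, ?_⟩, ?_⟩, ?_⟩
  · intro μ
    constructor
    · intro h
      obtain ⟨v, hv⟩ := h.exists_hasEigenvector
      have hv1 : T v = μ • v := hv.apply_eq_smul
      have hv0 : v ≠ 0 := hv.2
      by_contra hne
      push Not at hne
      apply hv0
      have : ∀ j, b.repr v j = 0 := by
        intro j
        have h2 := hrep v j
        rw [hv1, map_smul, Finsupp.smul_apply, smul_eq_mul] at h2
        have h3 : (μ - t j) * b.repr v j = 0 := by linear_combination h2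
        rcases mul_eq_zero.mp h3 with h4 | h4
        · exact absurd (sub_eq_zero.mp h4).symm (hne j)
        · exact h4
      have h5 : b.repr v = 0 := Finsupp.ext this
      exact b.repr.map_eq_zero_iff.mp h5
    · rintro ⟨i, rfl⟩
      exact Module.End.hasEigenvalue_of_hasEigenvector ⟨hmem i, b.ne_zero i⟩
  · intro i v hv
    have hv' : T v = t i • v := by
      rwa [Module.End.mem_eigenspace_iff] at hv
    have hz : ∀ j, j ≠ i → b.repr v j = 0 := by
      intro j hj
      have h2 := hrep v j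
      rw [hv', map_smul, Finsupp.smul_apply, smul_eq_mul] at h2
      have h3 : (t i - t j) * b.repr v j = 0 := by linear_combination h2
      rcases mul_eq_zero.mp h3 with h4 | h4
      · exact absurd (ht (sub_eq_zero.mp h4)).symm hj
      · exact h4
    have hvb : v = b.repr v i • b i := by
      conv_lhs => rw [← b.sum_repr v]
      rw [Finset.sum_eq_single i]
      · intro k _ hk; rw [hz k hk, zero_smul]
      · intro h; exact absurd (Finset.mem_univ i) h
    obtain ⟨c, hc, hc0⟩ := hS i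
    rw [hvb, map_smul, hc]
    apply Submodule.smul_mem
    apply Submodule.sum_mem
    intro j _
    by_cases hj : ((j : ℕ) ≤ (i : ℕ) + 1 ∧ (i : ℕ) ≤ (j : ℕ) + 1)
    · apply Submodule.smul_mem
      exact (le_iSup₂_of_le (f := fun (j : Fin 4)
        (_ : (j : ℕ) ≤ (i : ℕ) + 1 ∧ (i : ℕ) ≤ (j : ℕ) + 1) => T.eigenspace (t j)) j hj le_rfl)
        (hmem j)
    · rw [hc0 j hj, zero_smul]; exact Submodule.zero_mem _
  · rw [eq_top_iff, ← b.span_eq, Submodule.span_le]
    rintro _ ⟨i, rfl⟩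
    exact (le_iSup (fun μ => T.eigenspace μ) (t i)) (hmem i)

open Pool.Agent.H47.QTetra in
theorem isPair : IsTridiagonalPair LA LB 3 := by
  have h1 : ActsTridiagonally LA LB 3 ∧ ⨆ μ : ℂ, LA.eigenspace μ = ⊤ := by
    apply acts_of_basis (Pi.basisFun ℂ (Fin 4)) LA LB th th_inj
    · intro i
      ext j
      fin_cases i <;> fin_cases j <;> simp [LA_apply, th, Pi.single_apply]
    · intro i
      refine ⟨fun j => MB j i, ?_, ?_⟩
      · ext j
        fin_cases i <;> fin_cases j <;>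
          simp [LB_apply, MB, Pi.single_apply, Fin.sum_univ_four]
      · intro j hj
        fin_cases i <;> fin_cases j <;> simp [MB] at hj ⊢
  have h2 : ActsTridiagonally LB LA 3 ∧ ⨆ μ : ℂ, LB.eigenspace μ = ⊤ := by
    apply acts_of_basis sb LB LA ths ths_inj
    · intro i
      rw [sb_apply]; exact LB_sv i
    · intro i
      refine ⟨ca i, ?_, ?_⟩
      · simp only [sb_apply]
        ext j
        fin_cases i <;> fin_cases j <;>
          simp [LA_apply, ca, sv, Fin.sum_univ_four] <;> norm_num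
      · intro j hj
        fin_cases i <;> fin_cases j <;> simp [ca] at hj ⊢
  exact ⟨h1.2, h2.2, h1.1, h2.1, irred⟩

open Pool.Agent.H47.QTetra in
theorem rels : TridiagonalRelations LA LB (2 ^ 2 + ((2 : ℂ) ^ 2)⁻¹) 0 0 0 100 := by
  have e : (2 : ℂ) ^ 2 + ((2 : ℂ) ^ 2)⁻¹ = 17 / 4 := by norm_num
  rw [e]
  constructor
  · rw [Ring.lie_def, sub_eq_zero]
    apply LinearMap.ext
    intro v
    simp only [pow_two, Module.End.mul_apply, LinearMap.sub_apply, LinearMap.add_apply,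
      LinearMap.smul_apply]
    ext j
    fin_cases j <;> simp [LA_apply, LB_apply] <;> ring
  · rw [Ring.lie_def, sub_eq_zero]
    apply LinearMap.ext
    intro v
    simp only [pow_two, Module.End.mul_apply, LinearMap.sub_apply, LinearMap.add_apply,
      LinearMap.smul_apply]
    ext j
    fin_cases j <;> simp [LA_apply, LB_apply] <;> ring

theorem mem_span_three {V : Type*} [AddCommGroup V] [Module ℂ V] {x a b c : V}
    (h : x ∈ Submodule.span ℂ {a, b, c}) : ∃ r s t : ℂ, x = r • a + s • b + t • c := by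
  rw [Submodule.mem_span_insert] at h
  obtain ⟨r, z, hz, rfl⟩ := h
  rw [Submodule.mem_span_pair] at hz
  obtain ⟨s, t, rfl⟩ := hz
  exact ⟨r, s, t, by abel⟩

open Pool.Agent.H47.QTetra in
theorem no_hom (q : ℂ) (hq0 : q ≠ 0) (hqq : q ^ 2 + q⁻¹ ^ 2 = 17 / 4)
    (f : Tetra q →ₐ[ℂ] Module.End ℂ (Fin 4 → ℂ)) : ¬ Realizes f LA LB := by
  rintro ⟨hA, hB⟩
  have hA' := mem_span_three hA
  have hB' := mem_span_three hB
  classical
  let X : ZMod 4 → ZMod 4 → Module.End ℂ (Fin 4 → ℂ) := fun i j =>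
    if h : j - i = 1 ∨ j - i = 2 then f (Tetra.x q i j h) else 0
  have hX : ∀ i j (h : j - i = 1 ∨ j - i = 2), X i j = f (Tetra.x q i j h) := by
    intro i j h
    simp only [X, h, dif_pos]
  refine no_module_all q hq0 hqq X ?_ ?_ ?_ ?_
  · intro i j hij
    have h1 : j - i = 1 ∨ j - i = 2 := Or.inr hij
    have h2 : i - j = 1 ∨ i - j = 2 := by
      right
      rw [← neg_sub, hij]; decide
    rw [hX i j h1, hX j i h2, ← map_mul]
    have := RingQuot.mkAlgHom_rel ℂ (Rel.inv (q := q) i j h1 h2 hij)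
    rw [map_mul, map_one] at this
    rw [Tetra.x, Tetra.x, this, map_one]
  · intro i j k hijk
    have h1 : j - i = 1 ∨ j - i = 2 := by tauto
    have h2 : k - j = 1 ∨ k - j = 2 := by tauto
    rw [hX i j h1, hX j k h2]
    have := congrArg f (RingQuot.mkAlgHom_rel ℂ (Rel.qcomm (q := q) i j k h1 h2 hijk))
    simpa only [Tetra.x, map_sub, map_smul, map_mul, map_one] using this
  · obtain ⟨r, s, t, h⟩ := hA'
    exact ⟨r, s, t, by rw [h, hX, hX]⟩
  · obtain ⟨r, s, t, h⟩ := hB'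
    exact ⟨r, s, t, by rw [h, hX, hX]⟩

/-- **Negative answer.** The maps `A = diag(64,16,4,1)` and `As` on `ℂ⁴` form a tridiagonal pair of
diameter `3`. They satisfy the tridiagonal relations for some scalars with `β = q² + q⁻²`, `q = 2`.
Whenever they satisfy them with scalars `β, γ, γs, ρ, ρs` and `q ≠ 0` has `β = q² + q⁻²`, then `q` is
not a root of unity and no module structure of the q-tetrahedron algebra on `ℂ⁴`, irreducible or
not, has `A` in the span of `x01, x12, 1` and `As` in the span of `x23, x30, 1`. -/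
theorem result :
    ∃ A As : Module.End ℂ (Fin 4 → ℂ),
      A = Matrix.toLin' !![64, 0, 0, 0; 0, 16, 0, 0; 0, 0, 4, 0; 0, 0, 0, 1] ∧
      As = Matrix.toLin' !![0, 1, 0, 0; 21, 0, 5, 0; 0, 20, 0, 21; 0, 0, 16, 0] ∧
      IsTridiagonalPair A As 3 ∧
      (∃ γ γs ρ ρs : ℂ, TridiagonalRelations A As (2 ^ 2 + (2 ^ 2)⁻¹) γ γs ρ ρs) ∧
      ∀ β γ γs ρ ρs q : ℂ, TridiagonalRelations A As β γ γs ρ ρs → q ≠ 0 →
        β = q ^ 2 + (q ^ 2)⁻¹ →
        (∀ n : ℕ, 0 < n → q ^ n ≠ 1) ∧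
        ∀ f : Tetra q →ₐ[ℂ] Module.End ℂ (Fin 4 → ℂ), ¬ Realizes f A As := by
  refine ⟨Pool.Agent.H47.QTetra.LA, Pool.Agent.H47.QTetra.LB, rfl, rfl, isPair,
    ⟨0, 0, 0, 100, rels⟩, ?_⟩
  intro β γ γs ρ ρs q hrel hq0 hβ
  have hβ2 : β = 17 / 4 := by
    have h := hrel.1
    rw [Ring.lie_def, sub_eq_zero] at h
    exact Pool.Agent.H47.QTetra.beta_eq β γ ρ h
  have hqq : q ^ 2 + q⁻¹ ^ 2 = 17 / 4 := by
    rw [inv_pow, ← hβ, hβ2]
  refine ⟨?_, no_hom q hq0 hqq⟩
  intro n hn h1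
  have hn1 : ‖q‖ = 1 := by
    have h2 : ‖q‖ ^ n = 1 := by rw [← norm_pow, h1, norm_one]
    exact (pow_eq_one_iff_of_nonneg (norm_nonneg q) hn.ne').mp h2
  have h3 : ‖(17 / 4 : ℂ)‖ ≤ 2 := by
    rw [← hqq]
    calc ‖q ^ 2 + q⁻¹ ^ 2‖ ≤ ‖q ^ 2‖ + ‖q⁻¹ ^ 2‖ := norm_add_le _ _
      _ = 2 := by rw [norm_pow, norm_pow, norm_inv, hn1]; norm_num
  norm_num at h3

end Pool.Agent.Results.MP_b29e0e_al.NoTetrahedronModule
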